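import Pool.Agent.PCO.StmtsE

/-!
# Squad NTS / PCO, row E1: near boxes have the same apex
-/

set_option autoImplicit false

open Matrix Filter Topology

namespace Pool.Agent.PCO.H13

open Pool.Agent.PFS Pool.Agent.PFJ

theorem e1 (bf1 : Bf1Stmt) (bxm : BxmStmt) (bxw : BxwStmt) (ffp : FfpStmt)
    (dir : DirStmt) (e1a : E1aStmt) (noi : NoiF) : E1Stmt := by
  intro n C Γ d H U v Um vm hB hd hBm hdm hL hv
  have hP : PCone C := H.toCC.toPCone
  obtain ⟨-, hvcl, hv0, hvU, -, -, ⟨f, hf⟩, -, -⟩ := bf1 n C Γ H.toCC H.maxc U v hB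
  obtain ⟨-, -, -, -, hext, -, -⟩ := bxm n C Γ d H U v hB hd
  have hf0 : Unt C U (f + 0) := by rw [add_zero]; exact hf
  rcases ffp n C Γ d H U v Um vm hB hd hBm hdm hL hv f 0 1 hf.1 hf.2.1 U.zero_mem hP.zero_cl
    hf0 zero_le_one with h | h
  · have hnot : ∀ᶠ m in atTop, v ∉ Um m := by
      by_contra hcon
      rw [not_eventually] at hcon
      have h1 : ∃ᶠ m in atTop, v ∈ Um m := hcon.mono fun m hm => not_not.1 hm
      obtain ⟨θ, hθ, hθP⟩ := extraction_of_frequently_atTop h1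
      exact hvU (hL.2 θ (fun _ => v) v hθ hθP tendsto_const_nhds)
    filter_upwards [h, hnot] with m hm hvm
    have hmem : v ∈ Wb (Um m) (vm m) := by
      refine dir n C hP (Wb (Um m) (vm m)) (f + v) v (hP.cl_add hf.2.1 hvcl) hvcl
        hv0 hext fun j => ?_
      have e : f + (2 : ℝ) ^ j • (0 : V n) + (1 + (2 : ℝ) ^ j * 1) • v
          = f + v + (2 : ℝ) ^ j • v := by
        rw [smul_zero, add_zero, mul_one, add_smul, one_smul]
        abel
      have := hm j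
      rwa [e] at this
    rcases bxw n C Γ H.toCC H.maxc _ _ (hBm m) v hmem hvcl hext hv0 with h1 | ⟨t, ht, h1⟩
    · exact absurd h1 hvm
    · refine ⟨t⁻¹, inv_pos.mpr ht, ?_⟩
      rw [h1, smul_smul, inv_mul_cancel₀ ht.ne', one_smul]
  · exfalso
    obtain ⟨U1, v1, v2, hb1, hb2, hd1, hne⟩ := e1a n C Γ d H U v Um vm f hB hd hL hf h
    obtain ⟨c, hc, h2⟩ := noi n C Γ d H U1 v1 v2 hb1 hb2 hd1
    apply hne
    unfold Wb
    rw [h2, Submodule.span_singleton_smul_eq (IsUnit.mk0 c hc.ne')]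

end Pool.Agent.PCO.H13
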