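import Pool.Agent.PCO.StmtsP
import Pool.Agent.Helper10_PCO.DSC
import Pool.Agent.Helper11_PCO.EXK
import Pool.Agent.Helper16_PCO.LMT
import Pool.Agent.Helper19_PCO.BF3
import Pool.Agent.Helper19_PCO.FFP
import Pool.Agent.Helper20_PCO.E5
import Pool.Agent.Helper21_PCO.SE3
import Pool.Agent.Helper23_PCO.BF2
import Pool.Agent.Helper27_PCO.ZB3
import Pool.Agent.Helper28_PCO.ZNE
import Pool.Agent.Helper35_PCO.BXM
import Pool.Agent.Helper35_PCO.HSQ
import Pool.Agent.Helper37_PCO.WBL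
import Pool.Agent.Helper39_PCO.ACN
import Pool.Agent.Helper3_PCO.EDM
import Pool.Agent.Helper40_PCO.CPF
import Pool.Agent.Helper41_PCO.PRC
import Pool.Agent.Helper41_PCO.PRJ
import Pool.Agent.Helper41_PCO.SMF
import Pool.Agent.Helper41_PCO.TZA
import Pool.Agent.Helper49_PCO.TOP
import Pool.Agent.Helper55_PCO.WBF
import Pool.Agent.Helper56_PCO.BP3
import Pool.Agent.Helper56_PCO.HOR
import Pool.Agent.Helper58_PCO.N5
import Pool.Agent.Helper59_PCO.DIR
import Pool.Agent.Helper60_PCO.COD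
import Pool.Agent.Helper61_PCO.PRF
import Pool.Agent.Helper62_PCO.BXL
import Pool.Agent.Helper63_PCO.PZ3
import Pool.Agent.Helper65_PCO.SPZ
import Pool.Agent.Helper6_PCO.TVX
import Pool.Agent.Helper70_PCO.TRF
import Pool.Agent.Helper75_PCO.BXC
import Pool.Agent.Helper7_PCO.E2A
import Pool.Agent.Helper80_PCO.Clm
import Pool.Agent.Helper81_PCO.BXW
import Pool.Agent.Helper81_PCO.DON
import Pool.Agent.Helper82_PCO.EXB
import Pool.Agent.Helper82_PCO.HLM
import Pool.Agent.Helper13_PCO.E1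
import Pool.Agent.Helper88_PCO.HEQ
import Pool.Agent.Helper90_PCO.BF1
import Pool.Agent.Helper92_PCO.E4
import Pool.Agent.Helper97_PCO.SPF
import Pool.Agent.Helper98_PCO.NOI
import Pool.Agent.Helper71_NTS.E1A
import Pool.Agent.Helper71_NTS.PVA
import Pool.Agent.Helper10_NTS.HTE
import Pool.Agent.Helper20_NTS.PRE
import Pool.Agent.Helper26_NTS.NLN
import Pool.Agent.Helper27_NTS.NNG
import Pool.Agent.Helper44_NTS.HSL
import Pool.Agent.Helper49_NTS.TWO
import Pool.Agent.Helper55_NTS.ZSL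
import Pool.Agent.Helper56_NTS.EXV
import Pool.Agent.Helper56_NTS.VTX
import Pool.Agent.Helper58_NTS.BAL
import Pool.Agent.Helper58_NTS.LAB
import Pool.Agent.Helper63_NTS.FAE
import Pool.Agent.Helper65_NTS.DSE
import Pool.Agent.Helper92_NTS.EDC
import Pool.Agent.Helper95_NTS.NBD

/-!
# PCO: assembly of Theorem E (trivial edges), Theorem CO (codimension one) and the case `n ≤ 5`
-/

set_option autoImplicit false

open Matrix Filter Topology

namespace Pool.Agent.PCO.H13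

open Pool.Agent.PFS Pool.Agent.PFJ Pool.Agent.NTS

/-! ### Theorem E -/

theorem nngF : NngStmt := NTS.H27.nng
theorem exvF : ExvStmt := NTS.H56.exv nngF
theorem vtxF : VtxStmt := NTS.H56.vtx
theorem nbdF : NbdStmt := NTS.H95.nbd nngF
theorem twoF : TwoStmt := NTS.H49.two exvF
theorem edcF : EdcStmt := NTS.H92.edc
theorem hslF : HslStmt := NTS.H44.hsl exvF vtxF nbdF twoF edcF
theorem hteF : HteStmt := NTS.H10.hte nngF hslF
theorem labF : LabStmt := NTS.H58.lab
theorem zslF : ZslStmt := NTS.H55.zsl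
theorem balF : BalStmt := NTS.H58.bal
theorem nlnF : NlnStmt := NTS.H26.nln
theorem dseF : DseStmt := NTS.H65.dse exvF vtxF hteF labF zslF balF nlnF
theorem preF : PreStmt := NTS.H20.pre
theorem faeF : FaeStmt := NTS.H63.fae exvF dseF preF

/-! ### Theorem CO -/

theorem tvxF : TvxStmt := H6.tvx
theorem wbfF : WbfStmt := H55.wbf
theorem bxcF : BxcStmt := H75.bxc
theorem bf1F : Bf1Stmt := H90.bf1 bxcF
theorem bf2F : Bf2Stmt := H23.bf2 bxcF bf1F
theorem bf3F : Bf3Stmt := H19.bf3 bxcF bf1F bf2F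
theorem bxmF : BxmStmt := H35.bxm tvxF bf1F
theorem bxwF : BxwStmt := H81.bxw wbfF bf1F
theorem bxlF : BxlStmt := H62.bxl wbfF bxcF bf1F bf2F
theorem wblF : WblStmt := H37.wbl wbfF bf1F
theorem exbF : ExbStmt := H82.exb
theorem hsqF : HsqStmt := H35.hsq bf1F bf2F bf3F
theorem trfF : TrfStmt := H70.trf
theorem zneF : ZneStmt := H28.zne wbfF bf1F bf2F bxlF
theorem ffpF : FfpStmt := H19.ffp wbfF bf1F wblF trfF zneF
theorem dirF : DirStmt := H59.dir
theorem lmtF : LmtStmt := H16.lmt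
theorem smfF : SmfStmt := H41.smf
theorem prjF : PrjStmt := H41.prj bf1F bf2F bxmF bxlF trfF lmtF smfF
theorem prfF : PrfStmt := H61.prf wbfF bf1F smfF
theorem prcF : PrcStmt := H41.prc bf1F prfF lmtF
theorem tzaF : TzaStmt := H41.tza bf1F bf2F bxmF bxlF trfF lmtF smfF
theorem cpfF : CpfStmt := H40.cpf bf1F bf2F bf3F smfF tzaF
theorem clmF : ClmStmt := H80.clm bf1F bf2F bf3F bxmF prjF prfF cpfF
theorem horF : HorStmt := H56.hor bf1F cpfF
theorem spfF : SpfStmt := H97.spf wbfF bf1F bf2F bxmF bxwF prjF prfF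
theorem donF : DonStmt := H81.don bf1F bxmF
theorem spzF : SpzStmt := H65.spz bf1F bf2F bf3F smfF prjF prfF tzaF donF
theorem pvaF : PvaStmt := H71.pva bf1F bf2F bf3F smfF bxmF bxwF wbfF prfF tzaF spfF
theorem acnF : AcnStmt := H39.acn bf2F prjF prfF spfF pvaF
theorem hlmF : HlmStmt := H82.hlm wbfF bf1F bf2F bxlF prjF prfF prcF spfF
theorem heqF : HeqStmt := H88.heq wbfF bf1F bf2F bxmF bxwF ffpF dirF clmF spfF hlmF
theorem noiF : NoiStmt := H98.noi wbfF bf1F bf2F bf3F hsqF horF spzF spfF acnF hlmF heqF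
theorem e1aF : E1aStmt := H71.e1a bf1F
theorem e1F : E1Stmt := e1 bf1F bxmF bxwF ffpF dirF e1aF noiF
theorem e2aF : E2aStmt := H7.e2a wbfF bf1F bf2F bxmF
theorem e4F : E4Stmt := H92.e4 bf1F bf2F bxmF clmF prjF
theorem e5F : E5Stmt := H20.e5 wbfF bf1F bf2F bf3F bxmF bxlF hsqF e1F e4F horF
theorem dscF : DscStmt := H10.dsc bf1F bf2F bxmF bxwF ffpF dirF e1F e2aF e5F
theorem zb3F : Zb3Stmt := H27.zb3 wbfF bf1F bf2F bxlF dscF
theorem bp3F : Bp3Stmt := H56.bp3 bf1F bf2F bxmF zb3F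
theorem se3F : Se3Stmt := H21.se3 bf1F bf2F zb3F
theorem pz3F : Pz3Stmt := H63.pz3 bf2F bxmF bp3F se3F

/-- **Theorem CO** -/
theorem codF : CodStmt := H60.cod exbF pz3F

theorem edmF : EdmStmt := H3.edm
theorem exkF : ExkStmt := H11.exk
theorem topF : TopStmt := H49.top exkF

/-- **the case `n ≤ 5`** -/
theorem n5F : N5Stmt := H58.n5 faeF codF edmF topF

end Pool.Agent.PCO.H13
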